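import Pool.Agent.Lib.MP_4eed4e_an_PH.HDefs

/-!
MP_4eed4e_an, project P, block H, module HPoly: smoothness of the polygon as a function of the
parameters.
-/

namespace Pool.Agent.MP4eed4eP.H

open MeasureTheory Set Filter Topology

theorem tt_smooth {m : ℕ} (j : ℕ) : ContDiff ℝ 1 (fun c : Par m => tt c j) := by
  by_cases h : 1 ≤ j ∧ j ≤ m
  · have e : (fun c : Par m => tt c j) = fun c : Par m => c (iT ⟨j - 1, by omega⟩) := by
      funext c
      rw [tt, dif_pos h]
    rw [e]
    exact contDiff_apply ℝ ℝ _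
  · have e : (fun c : Par m => tt c j) = fun _ : Par m => if j = 0 then (0 : ℝ) else 1 := by
      funext c
      rw [tt, dif_neg h]
    rw [e]
    exact contDiff_const

theorem rr_smooth {m : ℕ} (j : ℕ) : ContDiff ℝ 1 (fun c : Par m => rr c j) := by
  by_cases h : 1 ≤ j ∧ j ≤ m
  · have e : (fun c : Par m => rr c j) = fun c : Par m => c (iR ⟨j - 1, by omega⟩) := by
      funext c
      rw [rr, dif_pos h]
    rw [e]
    exact contDiff_apply ℝ ℝ _
  · have e : (fun c : Par m => rr c j) = fun _ : Par m => (1 : ℝ) := by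
      funext c
      rw [rr, dif_neg h]
    rw [e]
    exact contDiff_const

private theorem HPoly_pB (m : ℕ) : ContDiff ℝ 1 (fun c : Par m => pB c) := by
  have h : ContDiff ℝ 1 (fun c : Par m => c (iS m)) := contDiff_apply ℝ ℝ _
  exact (h.mul contDiff_const).prodMk (h.mul contDiff_const)

private theorem HPoly_pA (m : ℕ) : ContDiff ℝ 1 (fun c : Par m => pA c) := by
  have h : ContDiff ℝ 1 (fun c : Par m => c (iX m)) := contDiff_apply ℝ ℝ _
  have h' : ContDiff ℝ 1 (fun c : Par m => c (iY m)) := contDiff_apply ℝ ℝ _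
  exact h.prodMk h'

theorem vert_smooth {m : ℕ} (j : ℕ) : ContDiff ℝ 1 (fun c : Par m => vert c j) := by
  have h1 := HPoly_pB m
  have h2 := HPoly_pA m
  have h3 := tt_smooth (m := m) j
  have h4 := rr_smooth (m := m) j
  exact h1.add (h4.smul (((contDiff_const.sub h3).smul h1.neg).add (h3.smul (h2.sub h1))))

theorem poly_smooth (m : ℕ) : ContDiff ℝ 1 (fun c : Par m => poly c) := by
  refine contDiff_pi.2 fun i => ?_
  by_cases h : (i : ℕ) = 0
  · have e : (fun c : Par m => poly c i) = fun c : Par m => pB c := by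
      funext c
      rw [poly, if_pos h]
    rw [e]
    exact HPoly_pB m
  · have e : (fun c : Par m => poly c i) = fun c : Par m => vert c ((i : ℕ) - 1) := by
      funext c
      rw [poly, if_neg h]
    rw [e]
    exact vert_smooth _

/-- The polygon as a function of the angle, the translation and the parameters. -/
theorem rigpoly_smooth (m : ℕ) :
    ContDiff ℝ 1 (fun (x : ℝ × P × Par m) (i : Fin (m + 3)) => rig x.1 x.2.1 (poly x.2.2 i)) := by
  refine contDiff_pi.2 fun i => ?_
  have h1 : ContDiff ℝ 1 (fun x : ℝ × P × Par m => poly x.2.2 i) :=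
    ((contDiff_pi.1 (poly_smooth m)) i).comp contDiff_snd.snd
  have h2 : ContDiff ℝ 1 (fun x : ℝ × P × Par m => Real.cos x.1) :=
    Real.contDiff_cos.comp contDiff_fst
  have h3 : ContDiff ℝ 1 (fun x : ℝ × P × Par m => Real.sin x.1) :=
    Real.contDiff_sin.comp contDiff_fst
  have h4 : ContDiff ℝ 1 (fun x : ℝ × P × Par m => x.2.1) := contDiff_snd.fst
  exact (((h2.mul h1.fst).sub (h3.mul h1.snd)).add h4.fst).prodMk
    (((h3.mul h1.fst).add (h2.mul h1.snd)).add h4.snd)

/-- Proof. `ContDiffAt.exists_lipschitzOnWith` (for the point `c'`) and a ball in the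
neighbourhood. -/
theorem poly_lip {m : ℕ} (c' : Par m) : ∃ C δ : ℝ, 0 < C ∧ 0 < δ ∧
    ∀ c : Par m, ‖c - c'‖ ≤ δ → ‖poly c - poly c'‖ ≤ C * ‖c - c'‖ := by
  obtain ⟨K, t, ht, hK⟩ :=
    ((poly_smooth m).contDiffAt (x := c')).exists_lipschitzOnWith
  obtain ⟨δ, hδ, hb⟩ := Metric.nhds_basis_closedBall.mem_iff.1 ht
  refine ⟨K + 1, δ, by positivity, hδ, fun c hc => ?_⟩
  have h1 : c ∈ t := hb (by rw [Metric.mem_closedBall, dist_eq_norm]; exact hc)
  have h2 : c' ∈ t := hb (Metric.mem_closedBall_self hδ.le)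
  have h3 := hK.dist_le_mul c h1 c' h2
  rw [dist_eq_norm, dist_eq_norm] at h3
  refine h3.trans (mul_le_mul_of_nonneg_right ?_ (norm_nonneg _))
  linarith

/-- The translation part and the shape of a rotated translated vector. -/
theorem rig_comp (θ θ' : ℝ) (b b' v : P) :
    rig θ b (rig θ' b' v) = rig (θ + θ') (rig θ b b') v := by
  refine Prod.ext ?_ ?_
  · simp only [rig, Real.cos_add, Real.sin_add]
    ring
  · simp only [rig, Real.cos_add, Real.sin_add]
    ring

theorem rig_zero (v : P) : rig 0 0 v = v := by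
  refine Prod.ext ?_ ?_
  · simp [rig]
  · simp [rig]

/-- Proof. `b' = - R_{-θ} b`. -/
theorem rig_inv (θ : ℝ) (b : P) : ∃ b' : P, ∀ v, rig (-θ) b' (rig θ b v) = v ∧
    rig θ b (rig (-θ) b' v) = v := by
  refine ⟨(-(Real.cos θ * b.1 + Real.sin θ * b.2), Real.sin θ * b.1 - Real.cos θ * b.2),
    fun v => ?_⟩
  have h := Real.sin_sq_add_cos_sq θ
  constructor
  · refine Prod.ext ?_ ?_
    · simp only [rig, Real.cos_neg, Real.sin_neg]
      linear_combination v.1 * h
    · simp only [rig, Real.cos_neg, Real.sin_neg]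
      linear_combination v.2 * h
  · refine Prod.ext ?_ ?_
    · simp only [rig, Real.cos_neg, Real.sin_neg]
      linear_combination (v.1 - b.1) * h
    · simp only [rig, Real.cos_neg, Real.sin_neg]
      linear_combination (v.2 - b.2) * h

theorem rig_add (θ : ℝ) (b v w : P) : rig θ b v + w = rig θ (b + w) v := by
  refine Prod.ext ?_ ?_
  · simp only [rig, Prod.fst_add]
    ring
  · simp only [rig, Prod.snd_add]
    ring

end Pool.Agent.MP4eed4eP.H
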