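import Pool.Agent.Lib.MP_4eed4e_an_P.PBase

/-!
MP_4eed4e_an, project P, block H (generic finiteness): definitions.

PLAN. `a : Ix m → ℕ` is chosen such that the Jacobian of `Psi a` (the traces `Fn m (a i)`) is not
identically zero on `CM m` (block F). `SS a` = the exceptional parameters, a null set
(modules HZero, HSard, HGood): for `c` outside, no polygon with fewer vertices has the values
`Psi a c`, and at the polygons with as many vertices and these values the Jacobian is not zero.
`UP a` = the points in convex position all of whose isospectral companions have as many vertices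
and a nonzero Jacobian; `UP a` is open (HOpen), of full measure (HTra, HFull). If `q k` is a
sequence of polygons whose first `N k → ∞` eigenvalues are those of `p ∈ UP a` then a subsequence
is congruent to one companion of `p` (HSeq, from HTail), so the companions of `p` are finite in
number up to congruence and finitely many eigenvalues suffice (HFin). HEnd: transfer to the
Euclidean plane.
-/

namespace Pool.Agent.MP4eed4eP.H

open MeasureTheory Set Filter Topology

noncomputable section

/-- The traces with the exponents `a i` (a different number `m'` of marks is allowed). -/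
def Psi {m : ℕ} (a : Ix m → ℕ) (m' : ℕ) (c : Par m') : Ix m → ℝ := fun i => Fn m' (a i) c

/-- `c` is the normal form of the polygon spanned by `q`, up to the order of the points. -/
def NF {m : ℕ} (q : Fin (m + 3) → P) (c : Par m) : Prop :=
  c ∈ CM m ∧ Ccw (poly c) ∧ ∃ (e : Equiv.Perm (Fin (m + 3))) (θ : ℝ) (b : P),
    ∀ i, q (e i) = rig θ b (poly c i)

/-- The points `q` are in convex position and the Jacobian does not vanish at a normal form. -/
def Reg {m : ℕ} (a : Ix m → ℕ) (q : Fin (m + 3) → P) : Prop :=
  ∃ c, NF q c ∧ (fderiv ℝ (Psi a m) c).det ≠ 0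

/-- The good points: all isospectral companions are regular. -/
def UP {m : ℕ} (a : Ix m → ℕ) : Set (Fin (m + 3) → P) :=
  {p | ConvP p ∧ ∀ q : Fin (m + 3) → P, (Kp q).Nonempty →
    (∀ k, lamL (Kp q) k = lamL (Kp p) k) → Reg a q}

/-- Two polygons which differ by a rigid motion. -/
def Cg {n n' : ℕ} (q : Fin n → P) (q' : Fin n' → P) : Prop :=
  ∃ (θ : ℝ) (b : P), Kp q = rig θ b '' Kp q'

/-- The exceptional parameters. -/
def SS {m : ℕ} (a : Ix m → ℕ) : Set (Par m) :=
  {c | c ∈ CM m ∧ ((∃ c' ∈ CM m, Psi a m c' = Psi a m c ∧ (fderiv ℝ (Psi a m) c').det = 0) ∨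
    ∃ m' < m, ∃ c' ∈ CM m', Psi a m' c' = Psi a m c)}

end

end Pool.Agent.MP4eed4eP.H
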