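import Pool.Agent.Lib.MP_4eed4e_an_PH.HSeq

/-!
MP_4eed4e_an, project P, block H, module HFin: finiteness.
-/

namespace Pool.Agent.MP4eed4eP.H

open MeasureTheory Set Filter Topology

variable {m : ℕ}

/-- Proof. Let `C` be the set of the companions of `p` (`(Kp q).Nonempty`, all eigenvalues equal).
(1) There is a finite `F ⊆ C` such that every member of `C` is congruent to a member of `F`:
otherwise a sequence `q i ∈ C` with `¬ Cg (q i) (q j)` for `j < i`
(`exists_seq_of_forall_finset_exists`-like recursion), and `seq` (with `N i = i`) gives two members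
of it congruent to the same `q'` (`Cg.trans`, `Cg.symm`). The members of `F` are in convex position
by `UP` and `NF.convP`. (2) There is `N`: otherwise for every `i` a polygon `q i` with the first `i`
eigenvalues of `p` which is not congruent to a member of `F`; `seq` gives a companion `q'` congruent
to some `q (φ i)`, and `q'` is congruent to a member of `F`. -/
theorem fin {a : Ix m → ℕ} (ha : ∀ i, 2 ≤ a i) {p : Fin (m + 3) → P} (hp : p ∈ UP a) :
    ∃ (N : ℕ) (F : Set (Fin (m + 3) → P)), F.Finite ∧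
      (∀ q ∈ F, ConvP q ∧ ∀ k, lamL (Kp q) k = lamL (Kp p) k) ∧
      ∀ q : Fin (m + 3) → P, (Kp q).Nonempty →
        (∀ k ≤ N, lamL (Kp q) k = lamL (Kp p) k) → ∃ q' ∈ F, Cg q q' := by
  have h1 : ∃ F : Finset (Fin (m + 3) → P),
      (∀ q ∈ F, (Kp q).Nonempty ∧ ∀ k, lamL (Kp q) k = lamL (Kp p) k) ∧
      ∀ q : Fin (m + 3) → P, (Kp q).Nonempty → (∀ k, lamL (Kp q) k = lamL (Kp p) k) →
        ∃ q' ∈ F, Cg q q' := by
    by_contra hcon
    push Not at hcon
    obtain ⟨f, hf, hr⟩ := exists_seq_of_forall_finset_exists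
      (fun q : Fin (m + 3) → P => (Kp q).Nonempty ∧ ∀ k, lamL (Kp q) k = lamL (Kp p) k)
      (fun x y => ¬ Cg y x) (fun s hs => by
        obtain ⟨q, hq1, hq2, hq3⟩ := hcon s hs
        exact ⟨q, ⟨hq1, hq2⟩, hq3⟩)
    obtain ⟨φ, q', hφ, -, -, hev⟩ := seq ha hp (q := f) (fun i => (hf i).1) (N := fun i => i)
      tendsto_id (fun i k _ => (hf i).2 k)
    obtain ⟨i₀, hi₀⟩ := eventually_atTop.1 hev
    exact hr (φ i₀) (φ (i₀ + 1)) (hφ (Nat.lt_succ_self i₀))
      ((hi₀ (i₀ + 1) (Nat.le_succ i₀)).trans (hi₀ i₀ le_rfl).symm)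
  obtain ⟨F, hF, hFC⟩ := h1
  have h2 : ∃ N : ℕ, ∀ q : Fin (m + 3) → P, (Kp q).Nonempty →
      (∀ k ≤ N, lamL (Kp q) k = lamL (Kp p) k) → ∃ q' ∈ F, Cg q q' := by
    by_contra hcon
    push Not at hcon
    choose q hq1 hq2 hq3 using hcon
    obtain ⟨φ, q', -, -, hq', hev⟩ := seq ha hp (q := q) hq1 (N := fun i => i) tendsto_id hq2
    obtain ⟨i, hi⟩ := hev.exists
    obtain ⟨q'', hq''F, hq''⟩ := hFC q' (hi.nonempty (hq1 _)) hq'
    exact hq3 (φ i) q'' hq''F (hi.trans hq'')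
  obtain ⟨N, hN⟩ := h2
  refine ⟨N, F, F.finite_toSet, fun q hq => ?_, fun q h3 h4 => hN q h3 h4⟩
  have h3 := hF q hq
  obtain ⟨c, hc, -⟩ := hp.2 q h3.1 h3.2
  exact ⟨hc.convP, h3.2⟩

end Pool.Agent.MP4eed4eP.H
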