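import Pool.Agent.Lib.MP_4eed4e_an_PH.HPoly

/-!
MP_4eed4e_an, project P, block H, module HTra: null sets of parameters give null sets of
polygons.
-/

namespace Pool.Agent.MP4eed4eP.H

open MeasureTheory Set Filter Topology

/-- A differentiable map between finite dimensional spaces of the same dimension maps null sets to
null sets. Proof. Compose with a linear equivalence `L : F ≃L[ℝ] E`
(`ContinuousLinearEquiv.ofFinrankEq`) and use
`addHaar_image_eq_zero_of_differentiableOn_of_addHaar_eq_zero` in `E`; the image measure of `ν`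
under `L` is an additive Haar measure, so it has the same null sets as `μ`
(`Measure.absolutelyContinuous_isAddHaarMeasure`). -/
theorem null_image {E F : Type*} [NormedAddCommGroup E] [NormedSpace ℝ E]
    [FiniteDimensional ℝ E] [MeasurableSpace E] [BorelSpace E] (μ : Measure E)
    [μ.IsAddHaarMeasure] [NormedAddCommGroup F] [NormedSpace ℝ F] [FiniteDimensional ℝ F]
    [MeasurableSpace F] [BorelSpace F] (ν : Measure F) [ν.IsAddHaarMeasure]
    (hd : Module.finrank ℝ E = Module.finrank ℝ F) {f : E → F} (hf : Differentiable ℝ f)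
    {s : Set E} (hs : μ s = 0) : ν (f '' s) = 0 := by
  let L : F ≃L[ℝ] E := ContinuousLinearEquiv.ofFinrankEq hd.symm
  have h1 : μ ((fun x => L (f x)) '' s) = 0 :=
    addHaar_image_eq_zero_of_differentiableOn_of_addHaar_eq_zero μ
      (fun x _ => (L.differentiableAt.comp x (hf x)).differentiableWithinAt) hs
  have := FiniteDimensional.proper ℝ E
  have h2 : (Measure.map L ν) ≪ μ := Measure.absolutelyContinuous_isAddHaarMeasure _ _
  have h3 := h2 h1
  have h4 : ν (L ⁻¹' ((fun x => L (f x)) '' s)) ≤ (Measure.map L ν) ((fun x => L (f x)) '' s) :=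
    Measure.le_map_apply L.continuous.measurable.aemeasurable _
  have h5 : f '' s ⊆ L ⁻¹' ((fun x => L (f x)) '' s) := by
    rintro y ⟨x, hx, rfl⟩
    exact ⟨x, hx, rfl⟩
  exact nonpos_iff_eq_zero.1 ((measure_mono h5).trans (h4.trans h3.le))

/-- Proof. For the identity permutation: the set is the image of `univ ×ˢ univ ×ˢ S` under the map
of `rigpoly_smooth`, between spaces of the dimension `2 m + 6` (`null_image`; the measure on
`ℝ × P × Par m` is the product measure, `Measure.prod_null`-like for rectangles). A permutation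
of the coordinates is a linear equivalence (`null_image` again); finitely many permutations. -/
theorem null_tra {m : ℕ} {S : Set (Par m)} (hS : volume S = 0) :
    volume {p : Fin (m + 3) → P | ∃ c ∈ S, ∃ (e : Equiv.Perm (Fin (m + 3))) (θ : ℝ) (b : P),
      ∀ i, p (e i) = rig θ b (poly c i)} = 0 := by
  have hsub : {p : Fin (m + 3) → P | ∃ c ∈ S, ∃ (e : Equiv.Perm (Fin (m + 3))) (θ : ℝ) (b : P),
      ∀ i, p (e i) = rig θ b (poly c i)} ⊆ ⋃ e : Equiv.Perm (Fin (m + 3)),
      (fun (x : ℝ × P × Par m) (i : Fin (m + 3)) => rig x.1 x.2.1 (poly x.2.2 (e.symm i))) ''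
        (univ ×ˢ (univ ×ˢ S)) := by
    rintro p ⟨c, hc, e, θ, b, h⟩
    refine mem_iUnion.2 ⟨e, (θ, b, c), ⟨mem_univ _, mem_univ _, hc⟩, ?_⟩
    funext i
    have h1 := h (e.symm i)
    rw [e.apply_symm_apply] at h1
    exact h1.symm
  have i1 : (volume : Measure (P × Par m)).IsAddHaarMeasure :=
    Measure.prod.instIsAddHaarMeasure volume volume
  have i2 : (volume : Measure (ℝ × P × Par m)).IsAddHaarMeasure :=
    Measure.prod.instIsAddHaarMeasure volume volume
  refine measure_mono_null hsub (measure_iUnion_null fun e => ?_)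
  refine null_image (volume : Measure (ℝ × P × Par m)) volume ?_ ?_ ?_
  · simp only [Module.finrank_prod, Module.finrank_self, Module.finrank_pi,
      Module.finrank_pi_fintype, Finset.sum_const, Finset.card_univ, Fintype.card_fin,
      Fintype.card_sum, smul_eq_mul]
    ring
  · have h1 := (rigpoly_smooth m).differentiable one_ne_zero
    rw [differentiable_pi] at h1 ⊢
    intro i
    exact h1 (e.symm i)
  · rw [Measure.volume_eq_prod, Measure.prod_prod, Measure.volume_eq_prod, Measure.prod_prod, hS,
      mul_zero, mul_zero]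

end Pool.Agent.MP4eed4eP.H
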