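import Pool.Agent.Lib.MP_4eed4e_an_PH.HRig
import Pool.Agent.Lib.MP_4eed4e_an_PH.HTra

/-!
MP_4eed4e_an, project P, block H, module HFull: the good points have full measure.
-/

namespace Pool.Agent.MP4eed4eP.H

open MeasureTheory Set Filter Topology

variable {m : ℕ}

/-- Every nondegenerate polygon with at most `m + 3` vertices has a normal form with `m' ≤ m` marks.
Proof. `exists_ccw` gives `m'` and an injective `e : Fin (m' + 3) → Fin (m + 3)`, so `m' ≤ m`;
`exists_normal` for `q ∘ e`. If `m' = m` then `e` is a permutation. -/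
theorem exists_par {q : Fin (m + 3) → P} (hne : (Kp q).Nonempty) :
    (∃ c, NF q c) ∨ ∃ m' < m, ∃ c ∈ CM m', Ccw (poly c) ∧ Cg q (poly c) := by
  obtain ⟨m', e, he, hccw, hK⟩ := exists_ccw q hne
  have hle : m' ≤ m := by
    have := Fintype.card_le_of_injective e he
    simp only [Fintype.card_fin] at this
    omega
  obtain ⟨c, hc, hcc, θ, b, hr⟩ := exists_normal _ hccw
  rcases eq_or_lt_of_le hle with heq | hlt
  · subst heq
    exact Or.inl ⟨c, hc, hcc, Equiv.ofBijective e (Finite.injective_iff_bijective.1 he), θ, b,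
      fun i => hr i⟩
  · refine Or.inr ⟨m', hlt, c, hc, hcc, θ, b, ?_⟩
    rw [← Kp_rig, ← hK]
    have h1 : (fun i => q (e i)) = fun i => rig θ b (poly c i) := funext hr
    rw [h1]

/-- Proof. `Dom_eq`, `Cg.lamL`. -/
theorem fa_of_par {m' : ℕ} {q : Fin (m + 3) → P} {c : Par m'} (hc : c ∈ CM m')
    (h : Ccw (poly c)) (hq : Cg q (poly c)) (a : ℕ) : Fn m' a c = fa a (Kp q) := by
  have h1 : Dom c = Kp (poly c) := Dom_eq hc fun i j k hij hjk => (h i j k hij hjk).le
  have h2 : ∀ k, lamL (Kp q) k = lamL (Kp (poly c)) k := hq.lamL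
  simp only [Fn, fa, h1, h2]

/-- Proof. Let `NF p c` with `c` not in `SS a` and let `q` be an isospectral companion. Its traces
are those of `p`, so `Psi a m c` (`NF.fn`). By `exists_par` either `NF q c'`, and then
`Psi a m c' = Psi a m c`, so the determinant at `c'` is not zero and `q` is regular; or
`Psi a m' c' = Psi a m c` for some `m' < m` (`fa_of_par`), which is excluded. -/
theorem mem_UP {a : Ix m → ℕ} {p : Fin (m + 3) → P} {c : Par m} (h : NF p c) (hc : c ∉ SS a) :
    p ∈ UP a := by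
  refine ⟨h.convP, fun q hne hq => ?_⟩
  have hk : ∀ k, fa k (Kp q) = fa k (Kp p) := fun k => by simp only [fa, hq]
  rcases exists_par hne with ⟨c', hc'⟩ | ⟨m', hm', c', hc', hcc, hcg⟩
  · refine ⟨c', hc', fun hdet => hc ⟨h.1, Or.inl ⟨c', hc'.1, ?_, hdet⟩⟩⟩
    funext i
    change Fn m (a i) c' = Fn m (a i) c
    rw [hc'.fn, h.fn, hk]
  · refine absurd (⟨h.1, Or.inr ⟨m', hm', c', hc', ?_⟩⟩ : c ∈ SS a) hc
    funext i
    change Fn m' (a i) c' = Fn m (a i) c
    rw [fa_of_par hc' hcc hcg, h.fn, hk]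

/-- Proof. If `p` is in convex position and not in `UP a` then `NF p c` for some `c` (`exists_NF`),
in `SS a` by `mem_UP`; `null_tra`. -/
theorem full {a : Ix m → ℕ} (h : volume (SS a) = 0) :
    volume ({p : Fin (m + 3) → P | ConvP p} \ UP a) = 0 := by
  refine measure_mono_null ?_ (null_tra h)
  rintro p ⟨hp, hU⟩
  obtain ⟨c, hc⟩ := exists_NF (q := p) hp
  have hS : c ∈ SS a := by
    by_contra hn
    exact hU (mem_UP hc hn)
  obtain ⟨-, -, e, θ, b, hr⟩ := hc
  exact ⟨c, hS, e, θ, b, hr⟩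

end Pool.Agent.MP4eed4eP.H
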