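import Pool.Agent.Lib.MP_4eed4e_an_PH.HSeq

/-!
MP_4eed4e_an, project P, block H, module HOpen: the set of the good points is open.
-/

namespace Pool.Agent.MP4eed4eP.H

open MeasureTheory Set Filter Topology

variable {m : ℕ}

/-- Proof. Let `Reg a q'`, with the normal form `c'`; `NF_seq` gives normal forms `c i → c'` of
`q i`, and the determinant is continuous at `c'` (`analytic_Fn`). -/
theorem Reg_seq {a : Ix m → ℕ} (ha : ∀ i, 2 ≤ a i) {q : ℕ → Fin (m + 3) → P}
    {q' : Fin (m + 3) → P} (h : Tendsto q atTop (𝓝 q')) (hr : Reg a q') :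
    ∀ᶠ i in atTop, Reg a (q i) := by
  obtain ⟨c', hc, hd⟩ := hr
  obtain ⟨c, hlim, hNF⟩ := NF_seq h hc
  have hA : AnalyticAt ℝ (Psi a m) c' :=
    AnalyticAt.pi fun i => analytic_Fn (one_le_two.trans (ha i)) c' hc.1
  have h1 : ContinuousAt (fun x => (fderiv ℝ (Psi a m) x).det) c' :=
    ContinuousLinearMap.continuous_det.continuousAt.comp hA.fderiv.continuousAt
  have h2 := hlim.eventually (h1.eventually_ne hd)
  filter_upwards [hNF, h2] with i h3 h4
  exact ⟨c i, h3, h4⟩

/-- Proof. Otherwise there are `p ∈ UP a` and a sequence `p i → p` outside `UP a`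
(`exists_seq_forall_of_frequently`); `p i` is in convex position for large `i` (`isOpen_ConvP`), so
there are companions `q i` of `p i` which are not regular. `lamL (Kp (p i)) k → lamL (Kp p) k` by
`lamL_close`, so `lim` gives a limit `q'` of a subsequence (translated), a companion of `p`, hence
regular, against `Reg_seq` and `Reg.add`. (A point of `UP a` has `(Kp p).Nonempty`: `exists_NF`,
`NF.nonempty`.) -/
theorem isOpen_UP {a : Ix m → ℕ} (ha : ∀ i, 2 ≤ a i) : IsOpen (UP a) := by
  rw [← isClosed_compl_iff]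
  refine IsSeqClosed.isClosed fun x p hx hlim hp => ?_
  obtain ⟨hpc, hpr⟩ := hp
  obtain ⟨N, hN⟩ := eventually_atTop.1 (hlim.eventually ((isOpen_ConvP m).mem_nhds hpc))
  have hex : ∀ i : ℕ, ∃ q : Fin (m + 3) → P, (Kp q).Nonempty ∧
      (∀ k, lamL (Kp q) k = lamL (Kp (x (i + N))) k) ∧ ¬ Reg a q := by
    intro i
    by_contra hcon
    push Not at hcon
    exact hx (i + N) ⟨hN _ (Nat.le_add_left _ _), hcon⟩
  choose q hq1 hq2 hq3 using hex
  have hpn : (Kp p).Nonempty := by
    obtain ⟨c, hc⟩ := exists_NF hpc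
    exact hc.nonempty
  have hlimN : Tendsto (fun i => x (i + N)) atTop (𝓝 p) :=
    hlim.comp (tendsto_add_atTop_nat N)
  have hl : ∀ k, Tendsto (fun i => lamL (Kp (q i)) k) atTop (𝓝 (lamL (Kp p) k)) := by
    intro k
    obtain ⟨C, δ, hC, hδ, hcl⟩ := lamL_close p hpn
    have h0 : Tendsto (fun i => ‖x (i + N) - p‖) atTop (𝓝 0) :=
      tendsto_iff_norm_sub_tendsto_zero.1 hlimN
    have h1 : Tendsto (fun i => C * ‖x (i + N) - p‖ * lamL (Kp p) k) atTop (𝓝 0) := by
      have h2 := (h0.const_mul C).mul_const (lamL (Kp p) k)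
      rwa [mul_zero, zero_mul] at h2
    rw [tendsto_iff_norm_sub_tendsto_zero]
    refine squeeze_zero' (Eventually.of_forall fun i => norm_nonneg _) ?_ h1
    filter_upwards [h0.eventually (ge_mem_nhds hδ)] with i hi
    rw [Real.norm_eq_abs, hq2 i k]
    exact (hcl _ hi).2 k
  obtain ⟨φ, v, q', -, hφ, hne, hk⟩ := lim hpn hq1 hl
  obtain ⟨i, hi⟩ := (Reg_seq ha hφ (hpr q' hne hk)).exists
  refine hq3 (φ i) ?_
  have h1 := hi.add (-v i)
  simpa only [add_neg_cancel_right] using h1

end Pool.Agent.MP4eed4eP.H
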