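import Pool.Agent.Lib.MP_4eed4e_an_PH.HGood
import Pool.Agent.Lib.MP_4eed4e_an_PH.HFull
import Pool.Agent.Lib.MP_4eed4e_an_PH.HOpen
import Pool.Agent.Lib.MP_4eed4e_an_PH.HFin
import Pool.Agent.Lib.MP_4eed4e_an_P.OutD
import Pool.Agent.Lib.MP_4eed4e_an_P.OutG

/-!
MP_4eed4e_an, project P, block H, module HEnd: the final theorem.
-/

namespace Pool.Agent.MP4eed4eP.H

open MeasureTheory Set Filter Topology

/-- The coordinates of a list of points. -/
def toPs {n : ℕ} (p : Fin n → E2) : Fin n → P := fun i => toP (p i)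

theorem toPs_cont (n : ℕ) : Continuous (toPs (n := n)) := by
  obtain ⟨e, he, -⟩ := exists_toPL
  refine continuous_pi fun i => ?_
  have h1 : (fun p : Fin n → E2 => toPs p i) = fun p => e (p i) := by
    funext p
    exact (he (p i)).symm
  rw [h1]
  exact e.continuous.comp (continuous_apply i)

/-- Proof. `toPs` is a linear homeomorphism (`exists_toPL`), so `null_image` for its inverse. -/
theorem null_toPs {n : ℕ} {S : Set (Fin n → P)} (h : volume S = 0) :
    volume {p : Fin n → E2 | toPs p ∈ S} = 0 := by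
  obtain ⟨e, he, he'⟩ := exists_toPL
  have hE : ∀ p : Fin n → E2, (ContinuousLinearEquiv.piCongrRight fun _ : Fin n => e) p =
      toPs p := by
    intro p
    funext i
    exact he (p i)
  have h1 : {p : Fin n → E2 | toPs p ∈ S} =
      (ContinuousLinearEquiv.piCongrRight fun _ : Fin n => e).symm '' S := by
    ext p
    constructor
    · intro hp
      refine ⟨toPs p, hp, ?_⟩
      rw [← hE p]
      exact ContinuousLinearEquiv.symm_apply_apply _ p
    · rintro ⟨v, hv, rfl⟩
      show toPs _ ∈ S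
      rw [← hE, ContinuousLinearEquiv.apply_symm_apply]
      exact hv
  rw [h1]
  exact null_image volume volume
    (ContinuousLinearEquiv.piCongrRight fun _ : Fin n => e).symm.toLinearEquiv.finrank_eq
    (ContinuousLinearEquiv.piCongrRight fun _ : Fin n => e).symm.differentiable h

/-- Proof. `eig_eq`, `image_KK`. -/
theorem eig_KK {n : ℕ} (q : Fin n → E2) (k : ℕ) : eig (KK q) k = lamL (Kp (toPs q)) k := by
  rw [eig_eq (KK q) isOpen_interior, image_KK]
  rfl

/-- Proof. `Kp (toPs q) = rig θ b '' Kp (toPs q')`; `exists_isometry` gives `φ` with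
`toP ∘ φ = rig θ b ∘ toP`, so `KK q = φ '' KK q'` (`image_KK`, `toP` is injective, `ofP_toP`);
take `φ.symm`. -/
theorem cg_iso {n n' : ℕ} (q : Fin n → E2) (q' : Fin n' → E2) (h : Cg (toPs q) (toPs q')) :
    ∃ φ : E2 ≃ᵢ E2, φ '' KK q = KK q' := by
  obtain ⟨θ, b, h⟩ := h
  obtain ⟨φ, hφ⟩ := exists_isometry θ b
  have hinj : Function.Injective toP := Function.LeftInverse.injective ofP_toP
  have h1 : φ '' KK q' = KK q := by
    refine hinj.image_injective ?_
    rw [image_KK, Set.image_image]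
    have h2 : (fun x => toP (φ x)) '' KK q' = rig θ b '' (toP '' KK q') := by
      rw [Set.image_image]
      exact Set.image_congr fun x _ => hφ x
    rw [h2, image_KK]
    exact h.symm
  refine ⟨φ.symm, ?_⟩
  rw [← h1, Set.image_image]
  simp

/-- Proof. `n = m + 3`; `exists_good m` gives `a`; `U = {p | toPs p ∈ UP a}`: open by `isOpen_UP`,
`toPs_cont`; `ConvPos p ↔ ConvP (toPs p)` (`convPos_iff`); `full`, `null_toPs`; for `p ∈ U` take
`N` from `fin` and the points `fun i => ofP (q i)`, `q ∈ F` (`toP_ofP`). -/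
theorem finite_companions' (n : ℕ) (hn : 3 ≤ n) :
    ∃ U : Set (Fin n → E2), IsOpen U ∧ U ⊆ {p | ConvPos p} ∧ volume ({p | ConvPos p} \ U) = 0 ∧
      ∀ p ∈ U, ∃ (N : ℕ) (F : Set (Fin n → E2)), F.Finite ∧
        (∀ q ∈ F, ConvPos q ∧ ∀ k, eig (KK q) k = eig (KK p) k) ∧
        ∀ q : Fin n → E2, (KK q).Nonempty → (∀ k ≤ N, eig (KK q) k = eig (KK p) k) →
          ∃ q' ∈ F, ∃ φ : E2 ≃ᵢ E2, φ '' KK q = KK q' := by
  obtain ⟨m, rfl⟩ : ∃ m, n = m + 3 := ⟨n - 3, by omega⟩
  obtain ⟨a, ha, hSS⟩ := exists_good m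
  have hconv : ∀ p : Fin (m + 3) → E2, ConvPos p ↔ ConvP (toPs p) := fun p => convPos_iff p
  refine ⟨{p | toPs p ∈ UP a}, (isOpen_UP ha).preimage (toPs_cont _), ?_, ?_, ?_⟩
  · intro p hp
    exact (hconv p).2 hp.1
  · have h1 : {p : Fin (m + 3) → E2 | ConvPos p} \ {p | toPs p ∈ UP a} =
        {p | toPs p ∈ {p : Fin (m + 3) → P | ConvP p} \ UP a} := by
      ext p
      exact and_congr (hconv p) Iff.rfl
    rw [h1]
    exact null_toPs (full hSS)
  · intro p hp
    obtain ⟨N, F, hF, hF1, hF2⟩ := fin ha hp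
    have hto : ∀ q : Fin (m + 3) → P, toPs (fun i => ofP (q i)) = q := by
      intro q
      funext i
      exact toP_ofP (q i)
    refine ⟨N, (fun (q : Fin (m + 3) → P) (i : Fin (m + 3)) => ofP (q i)) '' F, hF.image _,
      ?_, ?_⟩
    · rintro _ ⟨q, hq, rfl⟩
      obtain ⟨h1, h2⟩ := hF1 q hq
      refine ⟨?_, fun k => ?_⟩
      · rw [hconv, hto]
        exact h1
      · rw [eig_KK, eig_KK, hto]
        exact h2 k
    · intro q hq hk
      have h1 : (Kp (toPs q)).Nonempty := by
        have h2 := hq.image toP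
        rw [image_KK] at h2
        exact h2
      obtain ⟨q', hq', hcg⟩ := hF2 (toPs q) h1 fun k hk' => by
        rw [← eig_KK, ← eig_KK]
        exact hk k hk'
      refine ⟨_, ⟨q', hq', rfl⟩, ?_⟩
      refine cg_iso q _ ?_
      rw [hto]
      exact hcg

end Pool.Agent.MP4eed4eP.H
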