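import Mathlib

/-!
MP_4eed4e_an, project P, block H, module HSard: critical values and images from a lower dimension.
-/

namespace Pool.Agent.MP4eed4eP.H

open MeasureTheory Set Filter Topology

/-- Proof. `MeasureTheory.addHaar_image_eq_zero_of_det_fderivWithin_eq_zero`. -/
theorem null_crit {ι : Type*} [Fintype ι] {U : Set (ι → ℝ)} (hU : IsOpen U)
    {F : (ι → ℝ) → ι → ℝ} (hF : DifferentiableOn ℝ F U) :
    volume (F '' {c | c ∈ U ∧ (fderiv ℝ F c).det = 0}) = 0 := by
  refine addHaar_image_eq_zero_of_det_fderivWithin_eq_zero volume (f' := fderiv ℝ F)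
    (fun x hx => ?_) (fun x hx => hx.2)
  exact (hF.differentiableAt (hU.mem_nhds hx.1)).hasFDerivAt.hasFDerivWithinAt

/-- Proof. Take an injection `e : κ → ι` (`Fintype.card κ < Fintype.card ι`) and
`G x = F (x ∘ e)` on the open set `{x | x ∘ e ∈ U}`. The derivative of `G` factors through
`x ↦ x ∘ e`, which kills a nonzero vector (a coordinate vector outside the range of `e`), so its
determinant is `0`; the image of `G` is that of `F`. `null_crit`. -/
theorem null_low {κ ι : Type*} [Fintype κ] [Fintype ι] (h : Fintype.card κ < Fintype.card ι)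
    {U : Set (κ → ℝ)} (hU : IsOpen U) {F : (κ → ℝ) → ι → ℝ} (hF : DifferentiableOn ℝ F U) :
    volume (F '' U) = 0 := by
  classical
  obtain ⟨e⟩ : Nonempty (κ ↪ ι) := Function.Embedding.nonempty_of_card_le h.le
  obtain ⟨i, hi⟩ : ∃ i, i ∉ Set.range e := by
    by_contra hcon
    push Not at hcon
    have h1 : Function.Surjective e := fun i => hcon i
    exact absurd (Fintype.card_le_of_surjective e h1) (not_le.2 h)
  let P : (ι → ℝ) →L[ℝ] (κ → ℝ) :=
    ContinuousLinearMap.pi fun k => ContinuousLinearMap.proj (R := ℝ) (e k)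
  have hP : ∀ x k, P x k = x (e k) := fun x k => rfl
  have hV : IsOpen (P ⁻¹' U) := hU.preimage P.continuous
  have hG : DifferentiableOn ℝ (fun x => F (P x)) (P ⁻¹' U) := by
    intro x hx
    exact ((hF.differentiableAt (hU.mem_nhds hx)).comp x P.differentiableAt).differentiableWithinAt
  refine measure_mono_null ?_ (null_crit hV hG)
  rintro _ ⟨y, hy, rfl⟩
  have hy1 : P (Function.extend e y 0) = y := by
    funext k
    rw [hP]
    exact e.injective.extend_apply y 0 k
  refine ⟨Function.extend e y 0, ⟨?_, ?_⟩, ?_⟩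
  · show P _ ∈ U
    rw [hy1]
    exact hy
  · have hd : HasFDerivAt (fun x => F (P x)) ((fderiv ℝ F y).comp P) (Function.extend e y 0) := by
      have h1 : HasFDerivAt F (fderiv ℝ F y) (P (Function.extend e y 0)) := by
        rw [hy1]
        exact (hF.differentiableAt (hU.mem_nhds hy)).hasFDerivAt
      exact h1.comp _ P.hasFDerivAt
    rw [hd.fderiv, ContinuousLinearMap.det, LinearMap.det_eq_zero_iff_ker_ne_bot]
    intro hker
    have h1 : (Pi.single i (1 : ℝ) : ι → ℝ) ∈
        LinearMap.ker (((fderiv ℝ F y).comp P : (ι → ℝ) →L[ℝ] (ι → ℝ)) :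
          (ι → ℝ) →ₗ[ℝ] (ι → ℝ)) := by
      rw [LinearMap.mem_ker]
      show fderiv ℝ F y (P (Pi.single i 1)) = 0
      have h2 : P (Pi.single i 1) = 0 := by
        funext k
        rw [hP, Pi.single_eq_of_ne]
        · rfl
        · rintro rfl
          exact hi ⟨k, rfl⟩
      rw [h2, map_zero]
    rw [hker, Submodule.mem_bot] at h1
    have h3 := congrFun h1 i
    rw [Pi.single_eq_same] at h3
    exact one_ne_zero h3
  · show F (P _) = F y
    rw [hy1]

/-- Proof. Let `c` be a point of the set. By the inverse function theorem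
(`ContDiffAt.toOpenPartialHomeomorph`, `ContDiffAt.to_localInverse`, or `HasStrictFDerivAt`
versions) there are an open set `V` about `c`, contained in `U`, and a function `g`, differentiable
at the points `F x`, `x ∈ V` with `det ≠ 0`, with `g (F x) = x` on `V`. So the part of the set in
`V` is contained in the image under `g` of a subset of `B` on which `g` is differentiable, a null
set (`addHaar_image_eq_zero_of_differentiableOn_of_addHaar_eq_zero`). Countably many `V` cover the
set (`TopologicalSpace.countable_cover_nhdsWithin` / Lindelöf); or use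
`MeasureTheory.measure_null_of_locally_null`. -/
theorem null_pre {ι : Type*} [Fintype ι] {U : Set (ι → ℝ)} (hU : IsOpen U)
    {F : (ι → ℝ) → ι → ℝ} (hF : ContDiffOn ℝ 1 F U) {B : Set (ι → ℝ)} (hB : volume B = 0) :
    volume {c | c ∈ U ∧ (fderiv ℝ F c).det ≠ 0 ∧ F c ∈ B} = 0 := by
  refine measure_null_of_locally_null _ fun c hc => ?_
  obtain ⟨hcU, hcd, hcB⟩ := hc
  have hinv : ∀ x, (fderiv ℝ F x).det ≠ 0 → ∃ A : (ι → ℝ) ≃L[ℝ] (ι → ℝ),
      (A : (ι → ℝ) →L[ℝ] (ι → ℝ)) = fderiv ℝ F x := fun x hx =>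
    ⟨_, ContinuousLinearMap.coe_toContinuousLinearEquivOfDetNeZero _ hx⟩
  obtain ⟨A, hA⟩ := hinv c hcd
  have hsd : HasStrictFDerivAt F (A : (ι → ℝ) →L[ℝ] (ι → ℝ)) c := by
    rw [hA]
    exact (hF.contDiffAt (hU.mem_nhds hcU)).hasStrictFDerivAt one_ne_zero
  obtain ⟨e, he⟩ : ∃ e, e = hsd.toOpenPartialHomeomorph F := ⟨_, rfl⟩
  have heF : ∀ x, e x = F x := by
    intro x
    rw [he]
    rfl
  have hce : c ∈ e.source := by
    rw [he]
    exact hsd.mem_toOpenPartialHomeomorph_source
  refine ⟨{c | c ∈ U ∧ (fderiv ℝ F c).det ≠ 0 ∧ F c ∈ B} ∩ e.source,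
    Filter.inter_mem self_mem_nhdsWithin (mem_nhdsWithin_of_mem_nhds (e.open_source.mem_nhds hce)),
    ?_⟩
  obtain ⟨T, hT⟩ : ∃ T, T = F '' ({c | c ∈ U ∧ (fderiv ℝ F c).det ≠ 0 ∧ F c ∈ B} ∩ e.source) :=
    ⟨_, rfl⟩
  have hTB : volume T = 0 := by
    refine measure_mono_null ?_ hB
    rw [hT]
    rintro _ ⟨x, hx, rfl⟩
    exact hx.1.2.2
  have hdiff : DifferentiableOn ℝ e.symm T := by
    rw [hT]
    rintro _ ⟨x, ⟨⟨hxU, hxd, -⟩, hxe⟩, rfl⟩
    obtain ⟨A', hA'⟩ := hinv x hxd
    have h1 : HasFDerivAt e (A' : (ι → ℝ) →L[ℝ] (ι → ℝ)) (e.symm (F x)) := by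
      rw [← heF x, e.left_inv hxe, hA', show (e : (ι → ℝ) → ι → ℝ) = F from funext heF]
      exact ((hF.differentiableOn one_ne_zero).differentiableAt (hU.mem_nhds hxU)).hasFDerivAt
    have h2 : F x ∈ e.target := by
      rw [← heF x]
      exact e.map_source hxe
    exact (e.hasFDerivAt_symm h2 h1).differentiableAt.differentiableWithinAt
  refine measure_mono_null ?_ (addHaar_image_eq_zero_of_differentiableOn_of_addHaar_eq_zero
    volume hdiff hTB)
  intro x hx
  refine ⟨F x, ?_, ?_⟩
  · rw [hT]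
    exact ⟨x, hx, rfl⟩
  · rw [← heF x, e.left_inv hx.2]

end Pool.Agent.MP4eed4eP.H
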