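import Mathlib

/-!
MP_4eed4e_an, project P, block H, module HZero: the zero set of an analytic function is a null set.
-/

namespace Pool.Agent.MP4eed4eP.H

open MeasureTheory Set Filter Topology Metric

variable {E : Type*} [NormedAddCommGroup E] [NormedSpace ℝ E]

/-- The zeros on a ray from a point at which the function does not vanish are countable. Proof.
`g r = f (x + r • v)` is analytic on the open convex set `I = {r | x + r • v ∈ U}` of `ℝ`, which
contains `0`, and `g 0 ≠ 0`. So the zeros of `g` in `I` have no accumulation point in `I`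
(`AnalyticOnNhd.eqOn_zero_of_preconnected_of_frequently_eq_zero`), the set of the zeros is a
discrete subset of `I`, hence countable (`Set.Countable` of a set all of whose points are isolated;
or `AnalyticOnNhd` zero sets are `codiscreteWithin`, or: `I` is a countable union of compact sets
each of which contains finitely many zeros). -/
theorem ray_countable {U : Set E} (hU : IsOpen U) (hc : Convex ℝ U) {f : E → ℝ}
    (hf : AnalyticOnNhd ℝ f U) {x : E} (hx : x ∈ U) (h0 : f x ≠ 0) (v : E) :
    {r : ℝ | x + r • v ∈ U ∧ f (x + r • v) = 0}.Countable := by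
  have hcont : Continuous fun r : ℝ => x + r • v := by fun_prop
  have han : ∀ r : ℝ, AnalyticAt ℝ (fun r : ℝ => x + r • v) r := fun r => by fun_prop
  let I : Set ℝ := {r | x + r • v ∈ U}
  have hIc : IsPreconnected I := by
    have h1 : Convex ℝ I := by
      intro a ha b hb s t hs ht hst
      show x + (s • a + t • b) • v ∈ U
      have h2 : x + (s • a + t • b) • v = s • (x + a • v) + t • (x + b • v) := by
        rw [smul_add, smul_add, add_smul, smul_smul, smul_smul, smul_eq_mul, smul_eq_mul]
        have h3 : x = s • x + t • x := by rw [← add_smul, hst, one_smul]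
        nth_rewrite 1 [h3]
        abel
      rw [h2]
      exact hc ha hb hs ht hst
    exact h1.isPreconnected
  have hg : AnalyticOnNhd ℝ (fun r : ℝ => f (x + r • v)) I := fun r hr =>
    AnalyticAt.fun_comp (hf _ hr) (han r)
  rcases hg.eqOn_zero_or_eventually_ne_zero_of_preconnected hIc with h | h
  · exfalso
    have h1 : (0 : ℝ) ∈ I := by
      show x + (0 : ℝ) • v ∈ U
      rw [zero_smul, add_zero]
      exact hx
    have h2 := h h1
    simp only [zero_smul, add_zero, Pi.zero_apply] at h2
    exact h0 h2
  · have h1 : {r : ℝ | f (x + r • v) = 0}ᶜ ∈ codiscreteWithin I := h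
    have h2 := isDiscrete_of_codiscreteWithin h1
    have h3 : {r : ℝ | x + r • v ∈ U ∧ f (x + r • v) = 0} =
        {r : ℝ | f (x + r • v) = 0} ∩ I := by
      ext r
      exact and_comm
    rw [h3]
    have h4 : DiscreteTopology ↥({r : ℝ | f (x + r • v) = 0} ∩ I) := h2.to_subtype
    exact TopologicalSpace.separableSpace_iff_countable.1 inferInstance

/-- Proof. Let `f x ≠ 0`; by translation invariance `μ (S) = μ (S - x)`. With polar coordinates
(`MeasureTheory.Measure.measurePreserving_homeomorphUnitSphereProd`, the point `0` is not in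
`S - x`) the measure is an integral over the sphere of the measures of the sets
`{r > 0 | r • v ∈ S - x}` for `Measure.volumeIoiPow`, which is absolutely continuous with respect
to the Lebesgue measure (`withDensity`); these sets are countable by `ray_countable`. `S` is
measurable: it is `U` intersected with the zero set of a function continuous on `U`
(`ContinuousOn`, relatively closed in `U`). If `E` is trivial then `S` is empty. -/
theorem null_zeros [FiniteDimensional ℝ E] [MeasurableSpace E] [BorelSpace E] (μ : Measure E)
    [μ.IsAddHaarMeasure] {U : Set E} (hU : IsOpen U) (hc : Convex ℝ U) {f : E → ℝ}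
    (hf : AnalyticOnNhd ℝ f U) (hne : ∃ x ∈ U, f x ≠ 0) : μ {x | x ∈ U ∧ f x = 0} = 0 := by
  obtain ⟨x, hx, h0⟩ := hne
  have hSm : MeasurableSet {x | x ∈ U ∧ f x = 0} := by
    have h1 : IsOpen (U ∩ f ⁻¹' {0}ᶜ) :=
      hf.continuousOn.isOpen_inter_preimage hU isOpen_compl_singleton
    have h2 : {x | x ∈ U ∧ f x = 0} = U \ (U ∩ f ⁻¹' {0}ᶜ) := by
      ext y
      simp only [mem_setOf_eq, mem_diff, mem_inter_iff, mem_preimage, mem_compl_iff,
        mem_singleton_iff, not_and, not_not]
      constructor
      · rintro ⟨h3, h4⟩
        exact ⟨h3, fun _ => h4⟩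
      · rintro ⟨h3, h4⟩
        exact ⟨h3, h4 h3⟩
    rw [h2]
    exact hU.measurableSet.diff h1.measurableSet
  set S' : Set E := (fun y => x + y) ⁻¹' {x | x ∈ U ∧ f x = 0} with hS'
  have hS'm : MeasurableSet S' := hSm.preimage (measurable_const_add x)
  have hS'0 : S' ⊆ {0}ᶜ := by
    intro y hy hy0
    have h1 : y = 0 := hy0
    subst h1
    have h2 : f (x + 0) = 0 := hy.2
    rw [add_zero] at h2
    exact h0 h2
  have e1 : μ {x | x ∈ U ∧ f x = 0} = μ S' := (measure_preimage_add μ x _).symm
  have e2 : μ S' = (μ.comap (Subtype.val : ({0}ᶜ : Set E) → E)) (Subtype.val ⁻¹' S') := by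
    rw [comap_subtype_coe_apply (measurableSet_singleton (0 : E)).compl, Subtype.image_preimage_coe,
      inter_eq_right.2 hS'0]
  rw [e1, e2]
  have hmp := μ.measurePreserving_homeomorphUnitSphereProd
  have e3 : (μ.comap (Subtype.val : ({0}ᶜ : Set E) → E)) (Subtype.val ⁻¹' S') =
      (μ.toSphere.prod (Measure.volumeIoiPow (Module.finrank ℝ E - 1)))
        ((homeomorphUnitSphereProd E).symm ⁻¹' (Subtype.val ⁻¹' S')) := by
    have h1 := hmp.measure_preimage_emb (homeomorphUnitSphereProd E).measurableEmbedding
      ((homeomorphUnitSphereProd E).symm ⁻¹' (Subtype.val ⁻¹' S'))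
    rw [← h1]
    congr 1
    ext y
    simp only [mem_preimage, Homeomorph.symm_apply_apply]
  rw [e3, Measure.measure_prod_null]
  · refine Eventually.of_forall fun v => ?_
    have h1 : Measure.volumeIoiPow (Module.finrank ℝ E - 1) ≪
        (volume : Measure ℝ).comap (Subtype.val : Ioi (0 : ℝ) → ℝ) :=
      withDensity_absolutelyContinuous _ _
    refine h1 ?_
    rw [comap_subtype_coe_apply measurableSet_Ioi]
    refine Set.Countable.measure_zero ?_ _
    refine (ray_countable hU hc hf hx h0 (v : E)).mono ?_
    rintro _ ⟨r, hr, rfl⟩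
    have h2 : x + ((homeomorphUnitSphereProd E).symm (v, r) : E) ∈ {x | x ∈ U ∧ f x = 0} := hr
    rw [homeomorphUnitSphereProd_symm_apply_coe] at h2
    exact h2
  · exact (hS'm.preimage measurable_subtype_coe).preimage
      (homeomorphUnitSphereProd E).symm.measurable

end Pool.Agent.MP4eed4eP.H
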