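import Pool.Agent.Lib.MP_4eed4e_an_P.OutD
import Pool.Agent.Lib.MP_4eed4e_an_P.OutF
import Pool.Agent.Lib.MP_4eed4e_an_PH.HDefs
import Pool.Agent.Lib.MP_4eed4e_an_PH.HZero
import Pool.Agent.Lib.MP_4eed4e_an_PH.HSard

/-!
MP_4eed4e_an, project P, block H, module HGood: the exceptional parameters are a null set.
-/

namespace Pool.Agent.MP4eed4eP.H

open MeasureTheory Set Filter Topology

/-- Proof. `analytic_Fn`, `analyticOnNhd_pi_iff`-like (`AnalyticAt.pi`). -/
theorem Psi_an {m : ℕ} {a : Ix m → ℕ} (ha : ∀ i, 2 ≤ a i) (m' : ℕ) :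
    AnalyticOnNhd ℝ (Psi a m') (CM m') := fun c hc =>
  AnalyticAt.pi fun i => analytic_Fn (le_trans one_le_two (ha i)) c hc

/-- Proof. The determinant is a polynomial in the entries of the derivative, which is analytic
(`AnalyticOnNhd.fderiv`): write `det` as `Matrix.det` of the entries
`fderiv ℝ (Psi a m) c (Pi.single j 1) i` (`LinearMap.det_toMatrix'`) and expand
(`Matrix.det_apply`, finite sums and products of analytic functions). -/
theorem det_an {m : ℕ} {a : Ix m → ℕ} (ha : ∀ i, 2 ≤ a i) :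
    AnalyticOnNhd ℝ (fun c => (fderiv ℝ (Psi a m) c).det) (CM m) := by
  classical
  have h1 := (Psi_an ha m).fderiv
  have h2 : ∀ c : Par m, (fderiv ℝ (Psi a m) c).det = ∑ σ : Equiv.Perm (Ix m),
      ((Equiv.Perm.sign σ : ℤˣ) : ℤ) • ∏ i, fderiv ℝ (Psi a m) c (Pi.single i 1) (σ i) := by
    intro c
    show LinearMap.det ((fderiv ℝ (Psi a m) c : Par m →L[ℝ] (Ix m → ℝ)) :
      Par m →ₗ[ℝ] (Ix m → ℝ)) = _
    rw [← LinearMap.det_toMatrix', Matrix.det_apply]
    refine Finset.sum_congr rfl fun σ _ => ?_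
    rw [Units.smul_def]
    congr 1
  have h3 : (fun c : Par m => (fderiv ℝ (Psi a m) c).det) = fun c => ∑ σ : Equiv.Perm (Ix m),
      ((Equiv.Perm.sign σ : ℤˣ) : ℤ) • ∏ i, fderiv ℝ (Psi a m) c (Pi.single i 1) (σ i) :=
    funext h2
  rw [h3]
  intro c hc
  refine Finset.analyticAt_fun_sum _ fun σ _ => ?_
  have h4 : AnalyticAt ℝ (fun c : Par m =>
      ∏ i, fderiv ℝ (Psi a m) c (Pi.single i 1) (σ i)) c := by
    refine Finset.analyticAt_fun_prod _ fun i _ => ?_
    have h5 := h1 c hc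
    have h6 : AnalyticAt ℝ (fun A : Par m →L[ℝ] (Ix m → ℝ) => A (Pi.single i 1) (σ i))
        (fderiv ℝ (Psi a m) c) :=
      ((ContinuousLinearMap.proj (R := ℝ) (φ := fun _ : Ix m => ℝ) (σ i)).comp
        (ContinuousLinearMap.apply ℝ (Ix m → ℝ) (Pi.single i 1 : Par m))).analyticAt _
    exact h6.comp h5
  have h7 : (fun c : Par m => ((Equiv.Perm.sign σ : ℤˣ) : ℤ) •
      ∏ i, fderiv ℝ (Psi a m) c (Pi.single i 1) (σ i)) = fun c =>
      (((Equiv.Perm.sign σ : ℤˣ) : ℤ) : ℝ) *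
        ∏ i, fderiv ℝ (Psi a m) c (Pi.single i 1) (σ i) := by
    funext c
    rw [zsmul_eq_mul]
  rw [h7]
  exact analyticAt_const.mul h4

/-- Proof. `exists_det` gives `a`. Let `B` be the union of the critical values (`null_crit`) and of
the sets `Psi a m' '' CM m'`, `m' < m` (`null_low`, `card (Ix m') = 3 + 2 m'`), a null set. `SS a`
is the set of the `c` in `CM m` with `Psi a m c ∈ B`; the part with nonzero determinant is a null
set by `null_pre`, the part with zero determinant by `null_zeros` (`det_an`, `convex_CM`). -/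
theorem exists_good (m : ℕ) : ∃ a : Ix m → ℕ, (∀ i, 2 ≤ a i) ∧ volume (SS a) = 0 := by
  obtain ⟨a, ha, c0, hc0, hdet⟩ := exists_det m
  refine ⟨a, ha, ?_⟩
  have hdet' : (fderiv ℝ (Psi a m) c0).det ≠ 0 := hdet
  have hB1 : volume (Psi a m '' {c | c ∈ CM m ∧ (fderiv ℝ (Psi a m) c).det = 0}) = 0 :=
    null_crit (isOpen_CM m) (Psi_an ha m).differentiableOn
  have hB2 : ∀ m' < m, volume (Psi a m' '' CM m') = 0 := by
    intro m' hm'
    refine null_low ?_ (isOpen_CM m') (Psi_an ha m').differentiableOn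
    simp only [Fintype.card_sum, Fintype.card_fin]
    omega
  set B : Set (Ix m → ℝ) := (Psi a m '' {c | c ∈ CM m ∧ (fderiv ℝ (Psi a m) c).det = 0}) ∪
    ⋃ m' ∈ Set.Iio m, Psi a m' '' CM m' with hB
  have hB3 : volume B = 0 := by
    rw [hB]
    refine measure_union_null hB1 ?_
    refine (measure_biUnion_null_iff (Set.finite_Iio m).countable).2 fun m' hm' => ?_
    exact hB2 m' hm'
  have h1 := null_pre (isOpen_CM m) ((Psi_an ha m).contDiffOn (isOpen_CM m).uniqueDiffOn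
    (n := 1)) hB3
  have h2 := null_zeros (volume : Measure (Par m)) (isOpen_CM m) (convex_CM m) (det_an ha)
    ⟨c0, hc0, hdet'⟩
  refine measure_mono_null ?_ (measure_union_null h1 h2)
  rintro c ⟨hc, h⟩
  by_cases h0 : (fderiv ℝ (Psi a m) c).det = 0
  · exact Or.inr ⟨hc, h0⟩
  · refine Or.inl ⟨hc, h0, ?_⟩
    rcases h with ⟨c', hc', h3, h4⟩ | ⟨m', hm', c', hc', h3⟩
    · exact Or.inl ⟨c', ⟨hc', h4⟩, h3⟩
    · exact Or.inr (Set.mem_iUnion₂.2 ⟨m', hm', c', hc', h3⟩)

end Pool.Agent.MP4eed4eP.H
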