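import Pool.Agent.Lib.MP_4eed4e_an_P.OutD
import Pool.Agent.Lib.MP_4eed4e_an_P.OutG
import Pool.Agent.Lib.MP_4eed4e_an_PH.HPoly

/-!
MP_4eed4e_an, project P, block H, module HRig: congruence and normal forms.
-/

namespace Pool.Agent.MP4eed4eP.H

open MeasureTheory Set Filter Topology

variable {m n n' n'' : ℕ}

private theorem HRig_ccw {n : ℕ} {q q' : Fin n → P} {θ : ℝ} {b : P}
    (h : ∀ i, q i = rig θ b (q' i)) (hq : Ccw q') : Ccw q := by
  intro i j k hij hjk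
  rw [h i, h j, h k, PG.det2_rig]
  exact hq i j k hij hjk

private theorem HRig_nS (q : Fin (m + 3) → P) (θ : ℝ) (b : P) :
    PG.nS (fun i => rig θ b (q i)) = PG.nS q := by
  unfold PG.nS
  congr 1
  have hcs := Real.cos_sq_add_sin_sq θ
  simp only [rig]
  linear_combination (((q 0).1 - (q 1).1) ^ 2 + ((q 0).2 - (q 1).2) ^ 2) * hcs

private theorem HRig_nX (q : Fin (m + 3) → P) (θ : ℝ) (b w : P) :
    PG.nX (fun i => rig θ b (q i)) (rig θ b w) = PG.nX q w := by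
  unfold PG.nX
  rw [PG.det2_rig, PG.det2_rig]

private theorem HRig_nY (q : Fin (m + 3) → P) (θ : ℝ) (b w : P) :
    PG.nY (fun i => rig θ b (q i)) (rig θ b w) = PG.nY q w := by
  unfold PG.nY
  rw [PG.det2_rig, PG.det2_rig]

private theorem HRig_nD (q : Fin (m + 3) → P) (θ : ℝ) (b : P) :
    PG.nD (fun i => rig θ b (q i)) = PG.nD q := by
  unfold PG.nD
  rw [HRig_nS]
  congr 1
  have hcs := Real.cos_sq_add_sin_sq θ
  simp only [rig, Prod.fst_sub, Prod.snd_sub]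
  linear_combination (((q 0).1 - (q 1).1) * ((q (Fin.last _)).1 - (q 1).1) +
    ((q 0).2 - (q 1).2) * ((q (Fin.last _)).2 - (q 1).2)) * hcs

private theorem HRig_nE (q : Fin (m + 3) → P) (θ : ℝ) (b : P) :
    PG.nE (fun i => rig θ b (q i)) = PG.nE q := by
  unfold PG.nE
  rw [HRig_nS, PG.det2_rig]

private theorem HRig_NF (q : Fin (m + 3) → P) (θ : ℝ) (b : P) :
    PG.NF (fun i => rig θ b (q i)) = PG.NF q := by
  unfold PG.NF
  rw [HRig_nS, HRig_nD, HRig_nE]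
  simp only [HRig_nX, HRig_nY]

/-- Uniqueness of the normal form. -/
private theorem HRig_unique {c c' : Par m} (hc : c ∈ CM m) (hc' : c' ∈ CM m) {q : Fin (m + 3) → P}
    {θ θ' : ℝ} {b b' : P} (h : ∀ i, q i = rig θ b (poly c i))
    (h' : ∀ i, q i = rig θ' b' (poly c' i)) : c = c' := by
  have h1 : q = fun i => rig θ b (poly c i) := funext h
  have h2 : q = fun i => rig θ' b' (poly c' i) := funext h'
  rw [← PG.NF_poly hc, ← PG.NF_poly hc', ← HRig_NF (poly c) θ b, ← HRig_NF (poly c') θ' b', ← h1,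
    ← h2]

theorem Cg.refl (q : Fin n → P) : Cg q q := by
  refine ⟨0, 0, ?_⟩
  rw [show rig 0 0 = id from funext rig_zero, image_id]

/-- Proof. `rig_inv`. -/
theorem Cg.symm {q : Fin n → P} {q' : Fin n' → P} (h : Cg q q') : Cg q' q := by
  obtain ⟨θ, b, h⟩ := h
  obtain ⟨b', hb⟩ := rig_inv θ b
  refine ⟨-θ, b', ?_⟩
  rw [h, image_image]
  simp only [(hb _).1, image_id']

/-- Proof. `rig_comp`. -/
theorem Cg.trans {q : Fin n → P} {q' : Fin n' → P} {q'' : Fin n'' → P} (h : Cg q q')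
    (h' : Cg q' q'') : Cg q q'' := by
  obtain ⟨θ, b, h⟩ := h
  obtain ⟨θ', b', h'⟩ := h'
  refine ⟨θ + θ', rig θ b b', ?_⟩
  rw [h, h', image_image]
  simp only [rig_comp]

/-- Proof. `lamL_rig`. -/
theorem Cg.lamL {q : Fin n → P} {q' : Fin n' → P} (h : Cg q q') (k : ℕ) :
    lamL (Kp q) k = lamL (Kp q') k := by
  obtain ⟨θ, b, h⟩ := h
  rw [h, lamL_rig]

theorem Cg.nonempty {q : Fin n → P} {q' : Fin n' → P} (h : Cg q q') (hne : (Kp q).Nonempty) :
    (Kp q').Nonempty := by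
  obtain ⟨θ, b, h⟩ := h
  rw [h] at hne
  exact hne.of_image

/-- Proof. `Kp_rig` with `θ = 0`. -/
theorem Cg_add (q : Fin n → P) (v : P) : Cg (fun i => q i + v) q := by
  refine ⟨0, v, ?_⟩
  rw [← Kp_rig]
  congr 1
  funext i
  have h1 := rig_add 0 0 (q i) v
  rw [rig_zero, zero_add] at h1
  exact h1

/-- Proof. `Kp_perm`, `Kp_rig`. -/
theorem NF.cg {q : Fin (m + 3) → P} {c : Par m} (h : NF q c) : Cg q (poly c) := by
  obtain ⟨_, _, e, θ, b, h⟩ := h
  refine ⟨θ, b, ?_⟩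
  rw [← Kp_perm q e, ← Kp_rig]
  congr 1
  funext i
  exact h i

/-- Proof. `Dom_eq` (`Ccw` implies `WCcw`), `NF.cg`. -/
theorem NF.lamL {q : Fin (m + 3) → P} {c : Par m} (h : NF q c) (k : ℕ) :
    lamL (Dom c) k = lamL (Kp q) k := by
  rw [h.cg.lamL, Dom_eq h.1 fun i j k hij hjk => (h.2.1 i j k hij hjk).le]

theorem NF.fn {q : Fin (m + 3) → P} {c : Par m} (h : NF q c) (a : ℕ) :
    Fn m a c = fa a (Kp q) := by
  unfold Fn fa
  simp only [h.lamL]

/-- Proof. `Ccw.nonempty`. -/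
theorem NF.nonempty {q : Fin (m + 3) → P} {c : Par m} (h : NF q c) : (Kp q).Nonempty :=
  h.cg.symm.nonempty h.2.1.nonempty

/-- Proof. `Ccw_rig`, `Ccw.convP`, `convP_perm`. -/
theorem NF.convP {q : Fin (m + 3) → P} {c : Par m} (h : NF q c) : ConvP q := by
  obtain ⟨_, h2, e, θ, b, h⟩ := h
  exact (convP_perm q e).1 (HRig_ccw h h2).convP

/-- Proof. `exists_perm`, `exists_normal`. -/
theorem exists_NF {q : Fin (m + 3) → P} (h : ConvP q) : ∃ c, NF q c := by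
  obtain ⟨e, he⟩ := exists_perm q h
  obtain ⟨c, hc, hccw, θ, b, hb⟩ := exists_normal _ he
  exact ⟨c, hc, hccw, e, θ, b, hb⟩

theorem NF.add {q : Fin (m + 3) → P} {c : Par m} (h : NF q c) (v : P) :
    NF (fun i => q i + v) c := by
  obtain ⟨h1, h2, e, θ, b, h⟩ := h
  refine ⟨h1, h2, e, θ, b + v, fun i => ?_⟩
  rw [← rig_add, ← h]

theorem Reg.add {a : Ix m → ℕ} {q : Fin (m + 3) → P} (h : Reg a q) (v : P) :
    Reg a (fun i => q i + v) := by
  obtain ⟨c, h1, h2⟩ := h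
  exact ⟨c, h1.add v, h2⟩

/-- Two polygons with the same normal form are congruent. -/
theorem NF.cg' {q q' : Fin (m + 3) → P} {c : Par m} (h : NF q c) (h' : NF q' c) : Cg q q' :=
  h.cg.trans h'.cg.symm

/-- Proof. Let `q' ∘ e = rig θ b (poly c')`; `q' ∘ e` is `Ccw` by `Ccw_rig`. `normal_seq` for the
sequence `q i ∘ e` gives parameters `c i → c''` with `q' ∘ e = rig θ' b' (poly c'')`, so
`c'' = c'` by `normal_unique`. -/
theorem NF_seq {q : ℕ → Fin (m + 3) → P} {q' : Fin (m + 3) → P} {c' : Par m}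
    (h : Tendsto q atTop (𝓝 q')) (hc : NF q' c') :
    ∃ c : ℕ → Par m, Tendsto c atTop (𝓝 c') ∧ ∀ᶠ i in atTop, NF (q i) (c i) := by
  obtain ⟨h1, h2, e, θ, b, h3⟩ := hc
  have hcont : Continuous fun (x : Fin (m + 3) → P) (i : Fin (m + 3)) => x (e i) := by fun_prop
  obtain ⟨c, c'', k1, k2, k3, ⟨θ'', b'', k4⟩, k5⟩ := normal_seq (fun j i => q j (e i))
    (fun i => q' (e i)) (HRig_ccw h3 h2) ((hcont.tendsto q').comp h)
  have hcc : c'' = c' := HRig_unique k1 h1 k4 h3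
  rw [hcc] at k5
  refine ⟨c, k5, ?_⟩
  filter_upwards [k3] with i hi
  obtain ⟨m1, m2, θ₁, b₁, m3⟩ := hi
  exact ⟨m1, m2, e, θ₁, b₁, m3⟩

end Pool.Agent.MP4eed4eP.H
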