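import Mathlib

/-!
MP_4eed4e_an, project P, block H, module HTail: sums of powers of the eigenvalues.
-/

namespace Pool.Agent.MP4eed4eP.H

open MeasureTheory Set Filter Topology

/-- Proof. `x ≥ y / 2 > 0`, `|x⁻¹ - y⁻¹| = |y - x| / (x y) ≤ 2 η y⁻¹`, both inverses are at most
`2 y⁻¹`, and `|u ^ k - v ^ k| ≤ k M ^ (k - 1) |u - v|` for `0 ≤ u, v ≤ M` (`k = 2 a`). -/
theorem pow_close (a : ℕ) {x y η : ℝ} (hy : 0 < y) (h0 : 0 ≤ η) (h1 : η ≤ 1 / 2)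
    (h : |x - y| ≤ η * y) : |(x⁻¹) ^ (2 * a) - (y⁻¹) ^ (2 * a)| ≤
      2 * a * 4 ^ a * η * (y⁻¹) ^ (2 * a) := by
  have hx2 : y / 2 ≤ x := by
    have h2 := (abs_le.1 h).1
    nlinarith
  have hx : 0 < x := by linarith
  have hyi : 0 < y⁻¹ := inv_pos.2 hy
  have hxi : 0 < x⁻¹ := inv_pos.2 hx
  have hxle : x⁻¹ ≤ 2 * y⁻¹ := by
    have h2 := inv_anti₀ (by positivity : 0 < y / 2) hx2
    rwa [inv_div, div_eq_mul_inv] at h2
  have hdiff : |x⁻¹ - y⁻¹| ≤ 2 * η * y⁻¹ := by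
    have h3 : x⁻¹ - y⁻¹ = -(x - y) * (x⁻¹ * y⁻¹) := by
      field_simp
      ring
    rw [h3, abs_mul, abs_neg, abs_of_pos (mul_pos hxi hyi)]
    calc |x - y| * (x⁻¹ * y⁻¹) ≤ (η * y) * ((2 * y⁻¹) * y⁻¹) := by
          gcongr
      _ = 2 * η * y⁻¹ * (y * y⁻¹) := by ring
      _ = 2 * η * y⁻¹ := by rw [mul_inv_cancel₀ hy.ne', mul_one]
  rcases Nat.eq_zero_or_pos a with rfl | ha
  · simp
  have hmax : max |x⁻¹| |y⁻¹| ≤ 2 * y⁻¹ := by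
    rw [abs_of_pos hxi, abs_of_pos hyi]
    exact max_le hxle (by linarith)
  calc |(x⁻¹) ^ (2 * a) - (y⁻¹) ^ (2 * a)|
      ≤ |x⁻¹ - y⁻¹| * (2 * a : ℕ) * max |x⁻¹| |y⁻¹| ^ (2 * a - 1) := abs_pow_sub_pow_le ..
    _ ≤ (2 * η * y⁻¹) * (2 * a : ℕ) * (2 * y⁻¹) ^ (2 * a - 1) := by
        gcongr
    _ = (2 * a : ℕ) * η * ((2 * y⁻¹) ^ (2 * a - 1) * (2 * y⁻¹)) := by ring
    _ = (2 * a : ℕ) * η * (2 * y⁻¹) ^ (2 * a) := by
        rw [← pow_succ, Nat.sub_add_cancel (by omega)]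
    _ = 2 * a * 4 ^ a * η * (y⁻¹) ^ (2 * a) := by
        rw [mul_pow, pow_mul 2 2 a]
        push_cast
        norm_num
        ring

/-- Proof. `pow_close` for the terms `k ≥ N`, the terms `k < N` cancel; `Summable.of_norm_bounded`,
`Summable.sum_add_tsum_nat_add`. -/
theorem tail (a : ℕ) {x y : ℕ → ℝ} (hy : ∀ k, 0 < y k)
    (hs : Summable fun k => ((y k)⁻¹) ^ (2 * a)) {η : ℝ} (h0 : 0 ≤ η) (h1 : η ≤ 1 / 2)
    (hxy : ∀ k, |x k - y k| ≤ η * y k) {N : ℕ} (hN : ∀ k < N, x k = y k) :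
    |∑' k, ((x k)⁻¹) ^ (2 * a) - ∑' k, ((y k)⁻¹) ^ (2 * a)| ≤
      2 * a * 4 ^ a * η * ∑' k, ((y (k + N))⁻¹) ^ (2 * a) := by
  set C : ℝ := 2 * a * 4 ^ a * η with hC
  have hC0 : 0 ≤ C := by positivity
  have hb : ∀ k, |((x k)⁻¹) ^ (2 * a) - ((y k)⁻¹) ^ (2 * a)| ≤ C * ((y k)⁻¹) ^ (2 * a) :=
    fun k => pow_close a (hy k) h0 h1 (hxy k)
  have hd : Summable fun k => ((x k)⁻¹) ^ (2 * a) - ((y k)⁻¹) ^ (2 * a) :=
    Summable.of_norm_bounded (hs.mul_left C) fun k => by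
      rw [Real.norm_eq_abs]
      exact hb k
  have hx : Summable fun k => ((x k)⁻¹) ^ (2 * a) := by
    have h2 := hd.add hs
    simpa using h2
  rw [← hx.tsum_sub hs, ← hd.sum_add_tsum_nat_add N]
  have hz : ∑ k ∈ Finset.range N, (((x k)⁻¹) ^ (2 * a) - ((y k)⁻¹) ^ (2 * a)) = 0 :=
    Finset.sum_eq_zero fun k hk => by rw [hN k (Finset.mem_range.1 hk), sub_self]
  rw [hz, zero_add]
  have hsN : Summable fun k => ((y (k + N))⁻¹) ^ (2 * a) :=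
    (summable_nat_add_iff (f := fun k => ((y k)⁻¹) ^ (2 * a)) N).2 hs
  rw [← tsum_mul_left]
  have h3 := tsum_of_norm_bounded (hsN.mul_left C).hasSum
    (f := fun k => ((x (k + N))⁻¹) ^ (2 * a) - ((y (k + N))⁻¹) ^ (2 * a)) fun k => by
      rw [Real.norm_eq_abs]
      exact hb (k + N)
  rwa [Real.norm_eq_abs] at h3

/-- Proof. The derivative `A` is invertible, so `‖A v‖ ≥ 2 κ ‖v‖`; and
`‖F x - F c - A (x - c)‖ ≤ κ ‖x - c‖` near `c`. -/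
theorem loc {ι : Type*} [Fintype ι] {F : (ι → ℝ) → ι → ℝ} {c : ι → ℝ}
    (hF : DifferentiableAt ℝ F c) (hd : (fderiv ℝ F c).det ≠ 0) :
    ∃ κ > 0, ∀ᶠ x in 𝓝 c, κ * ‖x - c‖ ≤ ‖F x - F c‖ := by
  set A := fderiv ℝ F c with hA
  obtain ⟨K, hK0, hK⟩ : ∃ K > 0, ∀ v, ‖v‖ ≤ K * ‖A v‖ := by
    have hker : LinearMap.ker (A : (ι → ℝ) →ₗ[ℝ] (ι → ℝ)) = ⊥ := by
      rw [LinearMap.ker_eq_bot]
      have h2 := (A.toContinuousLinearEquivOfDetNeZero hd).injective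
      intro u v huv
      apply h2
      simpa using huv
    obtain ⟨K, hK0, hK⟩ := LinearMap.exists_antilipschitzWith _ hker
    refine ⟨K, by exact_mod_cast hK0, fun v => ?_⟩
    have h3 := hK.le_mul_dist v 0
    simpa [dist_eq_norm] using h3
  have hκ : 0 < 1 / (2 * K) := by positivity
  refine ⟨1 / (2 * K), hκ, ?_⟩
  have h4 := (hasFDerivAt_iff_isLittleO.1 hF.hasFDerivAt).def hκ
  filter_upwards [h4] with x hx
  have h5 : ‖x - c‖ ≤ K * ‖A (x - c)‖ := hK _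
  have h6 : ‖A (x - c)‖ ≤ ‖F x - F c‖ + ‖F x - F c - A (x - c)‖ := by
    have h7 : A (x - c) = (F x - F c) - (F x - F c - A (x - c)) := by abel
    calc ‖A (x - c)‖ = ‖(F x - F c) - (F x - F c - A (x - c))‖ := by rw [← h7]
      _ ≤ _ := norm_sub_le _ _
  have h8 : 1 / K * ‖x - c‖ ≤ ‖A (x - c)‖ := by
    rw [div_mul_eq_mul_div, one_mul, div_le_iff₀ hK0]
    linarith
  have h9 : 1 / (2 * K) * ‖x - c‖ = 1 / K * ‖x - c‖ / 2 := by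
    field_simp
  rw [← hA] at hx
  linarith

end Pool.Agent.MP4eed4eP.H
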