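import Pool.Agent.Lib.MP_4eed4e_an_PH.HRig
import Pool.Agent.Lib.MP_4eed4e_an_PH.HTail

/-!
MP_4eed4e_an, project P, block H, module HSeq: sequences of polygons with more and more common
eigenvalues.
-/

namespace Pool.Agent.MP4eed4eP.H

open MeasureTheory Set Filter Topology

variable {m : ℕ}

/-- Proof. `v i = - q i 0`; `exists_limit` for the translated polygons and `l = lamL (Kp p)`
(`lamL_Kp_pos`, `lamL_Kp_tendsto`, `Cg_add`). -/
theorem lim {p : Fin (m + 3) → P} (hp : (Kp p).Nonempty) {q : ℕ → Fin (m + 3) → P}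
    (hne : ∀ i, (Kp (q i)).Nonempty)
    (h : ∀ k, Tendsto (fun i => lamL (Kp (q i)) k) atTop (𝓝 (lamL (Kp p) k))) :
    ∃ (φ : ℕ → ℕ) (v : ℕ → P) (q' : Fin (m + 3) → P), StrictMono φ ∧
      Tendsto (fun i j => q (φ i) j + v i) atTop (𝓝 q') ∧ (Kp q').Nonempty ∧
        ∀ k, lamL (Kp q') k = lamL (Kp p) k := by
  have hcg : ∀ i, Cg (fun j => q i j + -q i 0) (q i) := fun i => Cg_add (q i) (-q i 0)
  obtain ⟨φ, q', hφ, ht, hne', hk⟩ := exists_limit (0 : Fin (m + 3)) (fun k => lamL (Kp p) k)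
    (lamL_Kp_pos hp 0) (lamL_Kp_tendsto hp) (fun i j => q i j + -q i 0)
    (fun i => (hcg i).symm.nonempty (hne i)) (fun i => add_neg_cancel (q i 0))
    (fun k => (h k).congr fun i => ((hcg i).lamL k).symm)
  exact ⟨φ, fun i => -q (φ i) 0, q', hφ, ht, hne', hk⟩

private theorem HSeq_close {c' : Par m} (hc' : c' ∈ CM m) (hw : Ccw (poly c')) :
    ∃ C > 0, ∀ᶠ c in 𝓝 c', C * ‖c - c'‖ ≤ 1 / 2 ∧ (c ∈ CM m → Ccw (poly c) →
      ∀ k, |lamL (Dom c) k - lamL (Dom c') k| ≤ C * ‖c - c'‖ * lamL (Dom c') k) := by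
  obtain ⟨C₁, δ₁, hC₁, hδ₁, h₁⟩ := poly_lip c'
  obtain ⟨C₂, δ₂, hC₂, hδ₂, h₂⟩ := lamL_close (poly c') hw.nonempty
  have hW : ∀ c : Par m, Ccw (poly c) → WCcw (poly c) :=
    fun c h i j k hij hjk => (h i j k hij hjk).le
  refine ⟨C₂ * C₁, mul_pos hC₂ hC₁, ?_⟩
  have t0 : Tendsto (fun c : Par m => ‖c - c'‖) (𝓝 c') (𝓝 0) := by
    have := (continuous_id.sub continuous_const : Continuous fun c : Par m => c - c').norm.tendsto c'
    simpa using this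
  have e1 : ∀ᶠ c in 𝓝 c', ‖c - c'‖ < δ₁ := t0.eventually (gt_mem_nhds hδ₁)
  have e2 : ∀ᶠ c in 𝓝 c', ‖c - c'‖ < δ₂ / C₁ := t0.eventually (gt_mem_nhds (div_pos hδ₂ hC₁))
  have e3 : ∀ᶠ c in 𝓝 c', ‖c - c'‖ < 1 / 2 / (C₂ * C₁) :=
    t0.eventually (gt_mem_nhds (div_pos (by norm_num) (mul_pos hC₂ hC₁)))
  filter_upwards [e1, e2, e3] with c g1 g2 g3
  have k3 : ‖c - c'‖ * (C₂ * C₁) < 1 / 2 := (lt_div_iff₀ (mul_pos hC₂ hC₁)).1 g3
  have k2 : ‖c - c'‖ * C₁ < δ₂ := (lt_div_iff₀ hC₁).1 g2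
  have hl := h₁ c g1.le
  refine ⟨by rw [mul_comm]; exact k3.le, fun hc hcw k => ?_⟩
  obtain ⟨hne, hk⟩ := h₂ (poly c) (by linarith [mul_comm ‖c - c'‖ C₁])
  rw [Dom_eq hc (hW c hcw), Dom_eq hc' (hW c' hw)]
  refine (hk k).trans ?_
  have hnn : 0 ≤ lamL (Kp (poly c')) k := by
    rcases k with _ | k
    · rw [lamL_zero]
    · exact (lamL_Kp_pos hw.nonempty k).le
  have : C₂ * ‖poly c - poly c'‖ ≤ C₂ * C₁ * ‖c - c'‖ := by
    rw [mul_assoc]
    exact mul_le_mul_of_nonneg_left hl hC₂.le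
  exact mul_le_mul_of_nonneg_right this hnn

/-- Proof. By `lamL_close` for `poly c'` and `poly_lip`, for `c` near `c'` in `CM m` with
`Ccw (poly c)`: `|lamL (Dom c) k - lamL (Dom c') k| ≤ C ‖c - c'‖ lamL (Dom c') k` for all `k`
(`Dom_eq`). If the first `N` eigenvalues agree then by `tail` (`x k = lamL (Dom c) (k + 1)`)
`|Fn m (a i) c - Fn m (a i) c'| ≤ C_i ‖c - c'‖ τ_i N`, where `τ_i N` is the remainder of a
convergent series (`summable_lamL_Dom`), so it is at most `κ / 2 * ‖c - c'‖` for large `N`, all `i`;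
with `loc` for `Psi a m` (`analytic_Fn`) this gives `‖c - c'‖ ≤ 0`. -/
theorem rigid {a : Ix m → ℕ} (ha : ∀ i, 2 ≤ a i) {c' : Par m} (hc' : c' ∈ CM m)
    (hw : Ccw (poly c')) (hd : (fderiv ℝ (Psi a m) c').det ≠ 0) :
    ∃ N₀ : ℕ, ∀ᶠ c in 𝓝 c', c ∈ CM m → Ccw (poly c) →
      (∀ k ≤ N₀, lamL (Dom c) k = lamL (Dom c') k) → c = c' := by
  obtain ⟨C, hC, hclose⟩ := HSeq_close hc' hw
  have ha1 : ∀ i, 1 ≤ a i := fun i => (by norm_num : 1 ≤ 2).trans (ha i)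
  have hdiff : DifferentiableAt ℝ (Psi a m) c' := by
    rw [differentiableAt_pi]
    intro i
    exact (analytic_Fn (ha1 i) c' hc').differentiableAt
  obtain ⟨κ, hκ, hloc⟩ := loc hdiff hd
  -- the remainders
  have hτ : ∀ i, Tendsto (fun N : ℕ => 2 * (a i : ℝ) * 4 ^ a i * C *
      ∑' k, ((lamL (Dom c') (k + N + 1))⁻¹) ^ (2 * a i)) atTop (𝓝 0) := by
    intro i
    have := tendsto_sum_nat_add (fun k => ((lamL (Dom c') (k + 1))⁻¹) ^ (2 * a i))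
    have := this.const_mul (2 * (a i : ℝ) * 4 ^ a i * C)
    rwa [mul_zero] at this
  have hN : ∀ᶠ N : ℕ in atTop, ∀ i, 2 * (a i : ℝ) * 4 ^ a i * C *
      ∑' k, ((lamL (Dom c') (k + N + 1))⁻¹) ^ (2 * a i) < κ / 2 := by
    rw [eventually_all]
    intro i
    exact (hτ i).eventually (gt_mem_nhds (half_pos hκ))
  obtain ⟨N, hN⟩ := hN.exists
  refine ⟨N, ?_⟩
  filter_upwards [hclose, hloc] with c h1 h2 hc hcw hk
  obtain ⟨h1, h3⟩ := h1
  have h3 := h3 hc hcw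
  have hn : 0 ≤ ‖c - c'‖ := norm_nonneg _
  have key : ‖Psi a m c - Psi a m c'‖ ≤ κ / 2 * ‖c - c'‖ := by
    rw [pi_norm_le_iff_of_nonneg (by positivity)]
    intro i
    have ht := tail (a i) (x := fun k => lamL (Dom c) (k + 1))
      (y := fun k => lamL (Dom c') (k + 1)) (fun k => lamL_Dom_pos hc' k)
      (summable_lamL_Dom hc' (ha1 i)) (η := C * ‖c - c'‖) (by positivity) h1
      (fun k => h3 (k + 1)) (N := N) (fun k hkN => hk (k + 1) hkN)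
    have he : ‖(Psi a m c - Psi a m c') i‖ = |∑' k, ((lamL (Dom c) (k + 1))⁻¹) ^ (2 * a i) -
        ∑' k, ((lamL (Dom c') (k + 1))⁻¹) ^ (2 * a i)| := rfl
    rw [he]
    refine ht.trans ?_
    have := mul_le_mul_of_nonneg_right (hN i).le hn
    refine le_trans (le_of_eq ?_) this
    ring
  have hz : ‖c - c'‖ = 0 := by
    by_contra hne
    have : 0 < ‖c - c'‖ := lt_of_le_of_ne hn (Ne.symm hne)
    nlinarith [mul_pos hκ this]
  exact sub_eq_zero.1 (norm_eq_zero.1 hz)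

/-- Proof. `lim` (the limits hold because `N i → ∞`: eventually equal) gives `φ, v, q'`; `q'` is a
companion of `p`, so `Reg a q'` with a normal form `c'`. `NF_seq` gives normal forms
`c i → c'` of the translated `q (φ i)`; their eigenvalues of order `k ≤ N (φ i)` are those of
`q'` (`NF.lamL`, `Cg_add`), so `c i = c'` for large `i` by `rigid`, and `NF.cg'`. -/
theorem seq {a : Ix m → ℕ} (ha : ∀ i, 2 ≤ a i) {p : Fin (m + 3) → P} (hp : p ∈ UP a)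
    {q : ℕ → Fin (m + 3) → P} (hne : ∀ i, (Kp (q i)).Nonempty) {N : ℕ → ℕ}
    (hN : Tendsto N atTop atTop) (h : ∀ i, ∀ k ≤ N i, lamL (Kp (q i)) k = lamL (Kp p) k) :
    ∃ (φ : ℕ → ℕ) (q' : Fin (m + 3) → P), StrictMono φ ∧ ConvP q' ∧
      (∀ k, lamL (Kp q') k = lamL (Kp p) k) ∧ ∀ᶠ i in atTop, Cg (q (φ i)) q' := by
  obtain ⟨c₀, hc₀⟩ := exists_NF hp.1
  have hlim : ∀ k, Tendsto (fun i => lamL (Kp (q i)) k) atTop (𝓝 (lamL (Kp p) k)) := by
    intro k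
    refine tendsto_const_nhds.congr' ?_
    filter_upwards [hN.eventually_ge_atTop k] with i hi
    exact (h i k hi).symm
  obtain ⟨φ, v, q', hφ, ht, hne', hk⟩ := lim hc₀.nonempty hne hlim
  obtain ⟨c', hc', hdet⟩ := hp.2 q' hne' hk
  obtain ⟨c, hc, hNF⟩ := NF_seq ht hc'
  obtain ⟨N₀, hr⟩ := rigid ha hc'.1 hc'.2.1 hdet
  refine ⟨φ, q', hφ, hc'.convP, hk, ?_⟩
  have hNφ : ∀ᶠ i in atTop, N₀ ≤ N (φ i) :=
    (hN.comp hφ.tendsto_atTop).eventually_ge_atTop N₀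
  filter_upwards [hNF, hc.eventually hr, hNφ] with i h1 h2 h3
  have hcg : Cg (fun j => q (φ i) j + v i) (q (φ i)) := Cg_add (q (φ i)) (v i)
  have heq : c i = c' := by
    refine h2 h1.1 h1.2.1 fun k hkN => ?_
    rw [h1.lamL k, hc'.lamL k, hcg.lamL k, h (φ i) k (hkN.trans h3), hk k]
  rw [heq] at h1
  exact hcg.symm.trans (h1.cg' hc')

end Pool.Agent.MP4eed4eP.H
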